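import Pool.Agent.Q221.Dom.Main

/-!
# MP_1aa2a2_co, Q1: the class `Forb(S_{a,b})` is DOM-bounded for all `a, b ≥ 1`
-/

namespace Pool.Agent.Results.MP_1aa2a2_co.DoubleStarsAreDomBounded

open Finset

/-- The set `X` of vertices is dominating: every vertex lies in `X` or has a neighbour in `X`. -/
def IsDominating {V : Type} (G : SimpleGraph V) (X : Set V) : Prop :=
  ∀ v, v ∈ X ∨ ∃ x ∈ X, G.Adj x v

/-- The vertex set can be partitioned into `k` dominating sets (the classes of `c`). -/
def HasDomaticPartition {V : Type} (G : SimpleGraph V) (k : ℕ) : Prop :=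
  ∃ c : V → Fin k, ∀ j : Fin k, IsDominating G {v | c v = j}

/-- The domatic number: the largest `k` such that there is a partition into `k` dominating sets. -/
noncomputable def domaticNumber {V : Type} (G : SimpleGraph V) : ℕ :=
  sSup {k | HasDomaticPartition G k}

/-- The minimum degree of a finite graph. -/
noncomputable def minDeg {V : Type} [Fintype V] (G : SimpleGraph V) : ℕ :=
  letI : DecidableRel G.Adj := Classical.decRel _
  G.minDegree

/-- A class of finite (nonempty) graphs is DOM-bounded: there is a nondecreasing unbounded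
function `f : ℕ → ℝ` with positive values such that `dom(G) ≥ f(δ(G))` for all graphs `G` of
the class. -/
def DomBounded (𝒢 : ∀ V : Type, SimpleGraph V → Prop) : Prop :=
  ∃ f : ℕ → ℝ, Monotone f ∧ (∀ n, 0 < f n) ∧ (∀ B : ℝ, ∃ n, B < f n) ∧
    ∀ (V : Type) [Fintype V] [Nonempty V] (G : SimpleGraph V), 𝒢 V G →
      f (minDeg G) ≤ (domaticNumber G : ℝ)

/-- The oriented edges of the double star: the centres are `inl false` and `inl true`, the `a`
leaves `inr (inl i)` are attached to `inl false`, the `b` leaves `inr (inr j)` to `inl true`. -/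
def starRel (a b : ℕ) : Bool ⊕ (Fin a ⊕ Fin b) → Bool ⊕ (Fin a ⊕ Fin b) → Prop
  | Sum.inl false, Sum.inl true => True
  | Sum.inl false, Sum.inr (Sum.inl _) => True
  | Sum.inl true, Sum.inr (Sum.inr _) => True
  | _, _ => False

/-- The double star `S_{a,b}`. -/
def doubleStar (a b : ℕ) : SimpleGraph (Bool ⊕ (Fin a ⊕ Fin b)) :=
  SimpleGraph.fromRel (starRel a b)

/-- `Forb(H)`: the graphs without an induced subgraph isomorphic to `H` (a graph embedding in
Mathlib is an induced one). -/
def Forb {α : Type} (H : SimpleGraph α) (V : Type) (G : SimpleGraph V) : Prop :=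
  IsEmpty (H ↪g G)

open Classical in
theorem sFree_of_forb {a b t : ℕ} (hat : a ≤ t) (hbt : b ≤ t) {V : Type} (G : SimpleGraph V)
    (h : Forb (doubleStar a b) V G) : Pool.Agent.Q221.Dom.SFree t G := by
  intro u v huv A B hA hB hA1 hB1 hA2 hB2 hAi hBi hAB
  obtain ⟨A', hA', hA'c⟩ := Finset.exists_subset_card_eq (hat.trans hA.ge)
  obtain ⟨B', hB', hB'c⟩ := Finset.exists_subset_card_eq (hbt.trans hB.ge)
  have eA := (A'.equivFinOfCardEq hA'c).symm
  have eB := (B'.equivFinOfCardEq hB'c).symm
  have mA : ∀ i, (eA i : V) ∈ A := fun i => hA' (eA i).2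
  have mB : ∀ i, (eB i : V) ∈ B := fun i => hB' (eB i).2
  have iA : ∀ i j, (eA i : V) = eA j → i = j := fun i j h => eA.injective (Subtype.ext h)
  have iB : ∀ i j, (eB i : V) = eB j → i = j := fun i j h => eB.injective (Subtype.ext h)
  let φ : Bool ⊕ (Fin a ⊕ Fin b) → V := fun s => match s with
    | Sum.inl false => u
    | Sum.inl true => v
    | Sum.inr (Sum.inl i) => eA i
    | Sum.inr (Sum.inr j) => eB j
  have hne := G.ne_of_adj huv
  have hinj : Function.Injective φ := by
    have nA : ∀ i, u ≠ eA i := fun i => G.ne_of_adj (hA1 _ (mA i)).1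
    have nB : ∀ i, v ≠ eB i := fun i => G.ne_of_adj (hB1 _ (mB i)).1
    have nAB : ∀ i j, (eA i : V) ≠ eB j := fun i j h => by
      have h1 := (hA1 _ (mA i)).1
      rw [h] at h1
      exact (hB1 _ (mB j)).2 h1
    rintro ((_ | _) | i | i) ((_ | _) | j | j) hij
    · rfl
    · exact absurd hij hne
    · exact absurd hij (nA j)
    · exact absurd hij (hB2 _ (mB j)).symm
    · exact absurd hij hne.symm
    · rfl
    · exact absurd hij (hA2 _ (mA j)).symm
    · exact absurd hij (nB j)
    · exact absurd hij.symm (nA i)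
    · exact absurd hij (hA2 _ (mA i))
    · rw [iA i j hij]
    · exact absurd hij (nAB i j)
    · exact absurd hij (hB2 _ (mB i))
    · exact absurd hij.symm (nB i)
    · exact absurd hij.symm (nAB j i)
    · rw [iB i j hij]
  refine h.false ⟨⟨φ, hinj⟩, ?_⟩
  intro x y
  change G.Adj (φ x) (φ y) ↔ (doubleStar a b).Adj x y
  rw [doubleStar, SimpleGraph.fromRel_adj]
  rcases x with ((_ | _) | i | i) <;> rcases y with ((_ | _) | j | j)
  · exact ⟨fun h => absurd h (G.loopless.irrefl _), fun h => absurd rfl h.1⟩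
  · exact ⟨fun _ => ⟨by simp, Or.inl trivial⟩, fun _ => huv⟩
  · exact ⟨fun _ => ⟨by simp, Or.inl trivial⟩, fun _ => (hA1 _ (mA j)).1⟩
  · exact ⟨fun h => absurd h (hB1 _ (mB j)).2, fun h => by
      rcases h.2 with h | h <;> exact h.elim⟩
  · exact ⟨fun _ => ⟨by simp, Or.inr trivial⟩, fun _ => huv.symm⟩
  · exact ⟨fun h => absurd h (G.loopless.irrefl _), fun h => absurd rfl h.1⟩
  · exact ⟨fun h => absurd h (hA1 _ (mA j)).2, fun h => by
      rcases h.2 with h | h <;> exact h.elim⟩
  · exact ⟨fun _ => ⟨by simp, Or.inl trivial⟩, fun _ => (hB1 _ (mB j)).1⟩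
  · exact ⟨fun _ => ⟨by simp, Or.inr trivial⟩, fun _ => (hA1 _ (mA i)).1.symm⟩
  · exact ⟨fun h => absurd h.symm (hA1 _ (mA i)).2, fun h => by
      rcases h.2 with h | h <;> exact h.elim⟩
  · exact ⟨fun h => absurd h (hAi _ (mA i) _ (mA j)), fun h => by
      rcases h.2 with h | h <;> exact h.elim⟩
  · exact ⟨fun h => absurd h (hAB _ (mA i) _ (mB j)), fun h => by
      rcases h.2 with h | h <;> exact h.elim⟩
  · exact ⟨fun h => absurd h.symm (hB1 _ (mB i)).2, fun h => by
      rcases h.2 with h | h <;> exact h.elim⟩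
  · exact ⟨fun _ => ⟨by simp, Or.inr trivial⟩, fun _ => (hB1 _ (mB i)).1.symm⟩
  · exact ⟨fun h => absurd h.symm (hAB _ (mA j) _ (mB i)), fun h => by
      rcases h.2 with h | h <;> exact h.elim⟩
  · exact ⟨fun h => absurd h (hBi _ (mB i) _ (mB j)), fun h => by
      rcases h.2 with h | h <;> exact h.elim⟩

theorem le_domaticNumber {V : Type} [Fintype V] [Nonempty V] (G : SimpleGraph V) {k : ℕ}
    (h : HasDomaticPartition G k) : k ≤ domaticNumber G := by
  refine le_csSup ⟨Fintype.card V, ?_⟩ h
  rintro n ⟨c, hc⟩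
  have hs : Function.Surjective c := by
    intro j
    rcases hc j (Classical.arbitrary V) with h | ⟨x, hx, _⟩
    · exact ⟨_, h⟩
    · exact ⟨x, hx⟩
  simpa using Fintype.card_le_of_surjective c hs

/-- **MP_1aa2a2_co, Q1.** For all integers `a, b ≥ 1` the class `Forb(S_{a,b})` is
DOM-bounded. -/
theorem result (a b : ℕ) (ha : 1 ≤ a) (hb : 1 ≤ b) : DomBounded (Forb (doubleStar a b)) := by
  classical
  have hcore : ∀ k : ℕ, ∃ D : ℕ, ∀ (V : Type) [Fintype V] [Nonempty V] (G : SimpleGraph V),
      Forb (doubleStar a b) V G → D ≤ minDeg G → k ≤ domaticNumber G := by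
    intro k
    rcases Nat.eq_zero_or_pos k with hk | hk
    · exact ⟨0, fun V _ _ G _ _ => hk ▸ Nat.zero_le _⟩
    · obtain ⟨D, hD⟩ := Pool.Agent.Q221.Dom.core (max a b) k (by omega) hk
      refine ⟨D, fun V _ _ G hG hdeg => le_domaticNumber G ?_⟩
      obtain ⟨col, hcol⟩ := hD V G (sFree_of_forb (le_max_left _ _) (le_max_right _ _) G hG) (by
        intro v
        refine hdeg.trans ?_
        have h1 := G.minDegree_le_degree v
        rw [← SimpleGraph.card_neighborFinset_eq_degree, SimpleGraph.neighborFinset_eq_filter] at h1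
        refine le_trans (le_of_eq ?_) (h1.trans (le_of_eq ?_))
        · unfold minDeg
          congr
        · congr)
      refine ⟨col, fun j v => ?_⟩
      obtain ⟨x, hx, hxj⟩ := hcol v j
      rcases hx with h | h
      · exact Or.inl (h ▸ hxj)
      · exact Or.inr ⟨x, hxj, h.symm⟩
  have hone : ∀ (V : Type) [Fintype V] [Nonempty V] (G : SimpleGraph V),
      1 ≤ domaticNumber G := by
    intro V _ _ G
    refine le_domaticNumber G ⟨fun _ => 0, fun j v => Or.inl ?_⟩
    exact (Subsingleton.elim _ _)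
  let Q : ℕ → ℕ → Prop := fun n k => ∀ (V : Type) [Fintype V] [Nonempty V] (G : SimpleGraph V),
    Forb (doubleStar a b) V G → n ≤ minDeg G → k ≤ domaticNumber G
  refine ⟨fun n => (max 1 (Nat.findGreatest (Q n) n) : ℕ), ?_, ?_, ?_, ?_⟩
  · intro n n' hn
    have h1 : Nat.findGreatest (Q n) n ≤ Nat.findGreatest (Q n') n' :=
      Nat.findGreatest_mono (fun k hk V _ _ G hG hd => hk V G hG (hn.trans hd)) hn
    exact Nat.cast_le.2 (max_le_max le_rfl h1)
  · intro n
    have : 0 < max 1 (Nat.findGreatest (Q n) n) := lt_of_lt_of_le one_pos (le_max_left _ _)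
    exact Nat.cast_pos.2 this
  · intro B
    obtain ⟨k, hk⟩ := exists_nat_gt B
    obtain ⟨D, hD⟩ := hcore k
    refine ⟨max D k, hk.trans_le ?_⟩
    have h1 : k ≤ Nat.findGreatest (Q (max D k)) (max D k) :=
      Nat.le_findGreatest (le_max_right _ _)
        (fun V _ _ G hG hd => hD V G hG ((le_max_left _ _).trans hd))
    exact Nat.cast_le.2 (h1.trans (le_max_right _ _))
  · intro V _ _ G hG
    have h1 : Q (minDeg G) (Nat.findGreatest (Q (minDeg G)) (minDeg G)) :=
      Nat.findGreatest_spec (P := Q (minDeg G)) (Nat.zero_le _)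
        (fun V _ _ G _ _ => Nat.zero_le _)
    exact Nat.cast_le.2 (max_le (hone V G) (h1 V G hG le_rfl))

end Pool.Agent.Results.MP_1aa2a2_co.DoubleStarsAreDomBounded
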